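import Pool.Agent.J4H4.DM.Stm

/-!
# Project DM, job GL: Gauss-Lucas for the strip and the operators `D^n (1 - b D²)^m`
-/

set_option autoImplicit false

namespace Pool.Agent.J4H47.DM

open Polynomial Complex
open Pool.Agent.J4H4.DM

/-- Gauss-Lucas for a convex set -/
lemma gl_step (T : Set ℂ) (hT : Convex ℝ T) (p : ℂ[X]) (hp : ∀ w ∈ p.roots, w ∈ T) :
    ∀ w ∈ (derivative p).roots, w ∈ T := by
  intro w hw
  have h0 : derivative p ≠ 0 := (Polynomial.mem_roots'.1 hw).1
  have hd : 0 < p.degree := by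
    by_contra h
    apply h0
    rw [Polynomial.eq_C_of_degree_le_zero (not_lt.1 h), derivative_C]
  have h1 : w ∈ (derivative p).rootSet ℂ := by
    rw [mem_rootSet]
    refine ⟨h0, ?_⟩
    rw [coe_aeval_eq_eval]
    exact (Polynomial.mem_roots'.1 hw).2
  have h2 := rootSet_derivative_subset_convexHull_rootSet hd h1
  refine convexHull_min ?_ hT h2
  intro v hv
  rw [mem_rootSet, coe_aeval_eq_eval] at hv
  exact hp v (Polynomial.mem_roots'.2 hv)

lemma gl_iter (T : Set ℂ) (hT : Convex ℝ T) (p : ℂ[X]) (hp : ∀ w ∈ p.roots, w ∈ T) (n : ℕ) :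
    ∀ w ∈ (derivative^[n] p).roots, w ∈ T := by
  induction n with
  | zero => exact hp
  | succ n ih =>
    rw [Function.iterate_succ_apply']
    exact gl_step T hT _ ih

lemma strip_convex : Convex ℝ {w : ℂ | |w.im| ≤ 1} := by
  have h : {w : ℂ | |w.im| ≤ 1} = {w : ℂ | w.im ≤ 1} ∩ {w : ℂ | (-1 : ℝ) ≤ w.im} := by
    ext w
    simp only [Set.mem_ofPred_eq, Set.mem_inter_iff, abs_le]
    exact And.comm
  rw [h]
  exact (convex_halfSpace_im_le 1).inter (convex_halfSpace_im_ge (-1))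

lemma im_inv_sub (z w : ℂ) : (1 / (z - w)).im = -(z.im - w.im) / Complex.normSq (z - w) := by
  rw [one_div, Complex.inv_im, Complex.sub_im]

/-- the sign of the imaginary part of `P'/P` outside a half plane containing the roots -/
lemma sum_im_neg (s : Multiset ℂ) (σ y : ℝ) (z : ℂ) (hs : ∀ w ∈ s, σ * w.im ≤ y) (hz : y < σ * z.im) :
    σ * ((s.map (fun w => 1 / (z - w))).sum).im ≤ 0 ∧
      (s ≠ 0 → σ * ((s.map (fun w => 1 / (z - w))).sum).im < 0) := by
  induction s using Multiset.induction_on with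
  | empty => simp
  | cons a s ih =>
    have h1 := ih (fun w hw => hs w (Multiset.mem_cons_of_mem hw))
    have h2 : σ * a.im ≤ y := hs a (Multiset.mem_cons_self a s)
    have h3 : z - a ≠ 0 := by
      intro h
      have : z = a := sub_eq_zero.1 h
      rw [this] at hz
      linarith
    have h4 : 0 < Complex.normSq (z - a) := Complex.normSq_pos.2 h3
    have h5 : σ * (1 / (z - a)).im < 0 := by
      rw [im_inv_sub]
      have : σ * (-(z.im - a.im) / Complex.normSq (z - a)) = (σ * a.im - σ * z.im) / Complex.normSq (z - a) := by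
        ring
      rw [this]
      exact div_neg_of_neg_of_pos (by linarith) h4
    rw [Multiset.map_cons, Multiset.sum_cons, Complex.add_im, mul_add]
    exact ⟨by linarith [h1.1], fun _ => by linarith [h1.1]⟩

/-- `P - a P'` (`a` real) has no zero outside a half plane `σ Im ≤ y` containing the roots of `P` -/
lemma eval_ne (P : ℂ[X]) (σ y a : ℝ) (z : ℂ) (hP : P ≠ 0) (hr : ∀ w ∈ P.roots, σ * w.im ≤ y) (hz : y < σ * z.im) :
    (P - C (a : ℂ) * derivative P).eval z ≠ 0 := by
  intro h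
  have h0 : P.eval z ≠ 0 := by
    intro h1
    have := hr z ((mem_roots hP).2 h1)
    linarith
  rw [eval_sub, eval_mul, eval_C, sub_eq_zero] at h
  have hsum := (IsAlgClosed.splits P).eval_derivative_div_eval_of_ne_zero h0
  have ha : (a : ℂ) ≠ 0 := by
    intro h1
    rw [h1, zero_mul] at h
    exact h0 h
  have hd : (derivative P).eval z ≠ 0 := by
    intro h1
    rw [h1, mul_zero] at h
    exact h0 h
  have hq : (derivative P).eval z / P.eval z = ((a⁻¹ : ℝ) : ℂ) := by
    rw [h, Complex.ofReal_inv]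
    field_simp
  have hne : P.roots ≠ 0 := by
    intro h1
    rw [h1] at hsum
    simp only [Multiset.map_zero, Multiset.sum_zero] at hsum
    exact (div_ne_zero hd h0) hsum
  have hneg := (sum_im_neg P.roots σ y z hr hz).2 hne
  rw [← hsum, hq, Complex.ofReal_im, mul_zero] at hneg
  exact lt_irrefl _ hneg

/-- `P - a P'` (`a` real) has all its roots in a half plane `σ Im ≤ y` (`σ = ±1`) containing the roots of `P`, and is not `0` -/
lemma no_root (P : ℂ[X]) (σ y a : ℝ) (hσ : σ ≠ 0) (hP : P ≠ 0) (hr : ∀ w ∈ P.roots, σ * w.im ≤ y) :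
    P - C (a : ℂ) * derivative P ≠ 0 ∧ ∀ w ∈ (P - C (a : ℂ) * derivative P).roots, σ * w.im ≤ y := by
  constructor
  · intro h
    have h1 := eval_ne P σ y a (⟨0, (y + 1) / σ⟩ : ℂ) hP hr (by
      change y < σ * ((y + 1) / σ)
      rw [mul_div_cancel₀ _ hσ]
      linarith)
    apply h1
    rw [h, eval_zero]
  · intro w hw
    by_contra hc
    exact eval_ne P σ y a w hP hr (not_le.1 hc) (mem_roots'.1 hw).2

lemma stp_factor (b : ℝ) (hb : 0 ≤ b) (P : ℂ[X]) :
    stp b P = (P - C ((Real.sqrt b : ℝ) : ℂ) * derivative P)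
      - C ((-Real.sqrt b : ℝ) : ℂ) * derivative (P - C ((Real.sqrt b : ℝ) : ℂ) * derivative P) := by
  have h : (C (b : ℂ) : ℂ[X]) = C ((Real.sqrt b : ℝ) : ℂ) * C ((Real.sqrt b : ℝ) : ℂ) := by
    rw [← C_mul, ← Complex.ofReal_mul, Real.mul_self_sqrt hb]
  unfold stp
  rw [h]
  simp only [Complex.ofReal_neg, C_neg, derivative_sub, derivative_C_mul]
  ring

/-- `(1 - b D²) P` has all its roots in a half plane containing the roots of `P`, and is not `0` -/
lemma stp_half (P : ℂ[X]) (σ y b : ℝ) (hσ : σ ≠ 0) (hb : 0 ≤ b) (hP : P ≠ 0) (hr : ∀ w ∈ P.roots, σ * w.im ≤ y) :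
    stp b P ≠ 0 ∧ ∀ w ∈ (stp b P).roots, σ * w.im ≤ y := by
  rw [stp_factor b hb P]
  have h1 := no_root P σ y (Real.sqrt b) hσ hP hr
  exact no_root _ σ y (-Real.sqrt b) hσ h1.1 h1.2

lemma stp_iter_half (P : ℂ[X]) (σ y b : ℝ) (hσ : σ ≠ 0) (hb : 0 ≤ b) (hP : P ≠ 0) (hr : ∀ w ∈ P.roots, σ * w.im ≤ y)
    (m : ℕ) : (stp b)^[m] P ≠ 0 ∧ ∀ w ∈ ((stp b)^[m] P).roots, σ * w.im ≤ y := by
  induction m with
  | zero => exact ⟨hP, hr⟩
  | succ m ih =>
    rw [Function.iterate_succ_apply']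
    exact stp_half _ σ y b hσ hb ih.1 ih.2

lemma half_convex (σ y : ℝ) : Convex ℝ {w : ℂ | σ * w.im ≤ y} := by
  have h : IsLinearMap ℝ (fun w : ℂ => σ * w.im) :=
    ⟨fun u v => by rw [Complex.add_im]; ring, fun c u => by rw [Complex.real_smul, Complex.re_ofReal_mul |> fun _ => Complex.im_ofReal_mul c u]; simp [smul_eq_mul]; ring⟩
  exact convex_halfSpace_le h y

/-- `D^n (1 - b D²)^m` keeps all roots in a half plane (the result may be `0`) -/
lemma op_half (P : ℂ[X]) (σ y b : ℝ) (hσ : σ ≠ 0) (hb : 0 ≤ b) (hP : P ≠ 0) (hr : ∀ w ∈ P.roots, σ * w.im ≤ y)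
    (m n : ℕ) : ∀ w ∈ (op b m n P).roots, σ * w.im ≤ y := by
  unfold op
  exact gl_iter {w : ℂ | σ * w.im ≤ y} (half_convex σ y) _ (stp_iter_half P σ y b hσ hb hP hr m).2 n

lemma stp_zero (b : ℝ) : stp b 0 = 0 := by
  simp [stp]

lemma stp_iter_zero (b : ℝ) (m : ℕ) : (stp b)^[m] 0 = 0 := by
  induction m with
  | zero => rfl
  | succ m ih => rw [Function.iterate_succ_apply', ih, stp_zero]

lemma der_iter_zero (n : ℕ) : derivative^[n] (0 : ℂ[X]) = 0 := by
  induction n with
  | zero => rfl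
  | succ n ih => rw [Function.iterate_succ_apply', ih, derivative_zero]

theorem t_GL : S_GL := by
  intro p b m n hb hp w hw
  have hP : p ≠ 0 := by
    intro h
    rw [h] at hw
    unfold op at hw
    rw [stp_iter_zero, der_iter_zero, roots_zero] at hw
    exact absurd hw (Multiset.notMem_zero w)
  rw [abs_le]
  constructor
  · have := op_half p (-1) 1 b (by norm_num) hb hP (fun v hv => by linarith [(abs_le.1 (hp v hv)).1]) m n w hw
    linarith
  · have := op_half p 1 1 b (by norm_num) hb hP (fun v hv => by linarith [(abs_le.1 (hp v hv)).2]) m n w hw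
    linarith

end Pool.Agent.J4H47.DM
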